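import Pool.Agent.W2helper78.LT.Stm
import Pool.Agent.TH992.L.BadPr

/-!
Piece WP of project LT: the bad event of a window has small probability.
-/

set_option autoImplicit false

namespace W66LT

open H974 Finset H342P H984P H984H TH992.L W78LT

/-- Translation of the bad event of a square to the corner `(0, 0)`. -/
theorem sq_pr {S : Finset Edg} {M n : ℕ} {R R1 b c : ℤ}
    (hS : RE b (b + n) c (c + n) ⊆ S) :
    Pr (fun _ => (1/2:ℝ)) S (fun F => ∃ (σ : St) (t : ℕ),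
      inR (b + R1) (b + n - R1) (c + R1) (c + n - R1) σ.1 ∧
      Far σ.1 R (orb (↑(F ∩ RE b (b + n) c (c + n)) : Set Edg) σ t).1 ∧ t < M) ≤
      Pr (fun _ => (1/2:ℝ)) (RE 0 n 0 n) (fun F => ∃ (σ : St) (t : ℕ),
      inR R1 (n - R1) R1 (n - R1) σ.1 ∧
      Far σ.1 R (orb (↑F) σ t).1 ∧ t < M) := by
  have e1 : RE b (b + n) c (c + n) = (trl b c).mp (RE 0 n 0 n) := by
    rw [trl_RE, zero_add, zero_add, add_comm (n : ℤ) b, add_comm (n : ℤ) c]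
  rw [Pr_local hS (fun F _ => by
    rw [Finset.inter_assoc, Finset.inter_self])]
  rw [e1, LSym.pr]
  apply Pr_mono half_ok
  rintro F hF ⟨σ, t, h1, h2, h3⟩
  have h4 : (trl b c).mp F ∩ (trl b c).mp (RE 0 n 0 n) = (trl b c).mp F := by
    rw [Finset.inter_eq_left]
    exact LSym.mp_mono _ hF
  rw [h4] at h2
  have h5 : bulk_tS b c (bulk_tS (-b) (-c) σ) = σ := by
    unfold bulk_tS
    simp
  refine ⟨bulk_tS (-b) (-c) σ, t, ?_, ?_, h3⟩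
  · unfold inR at h1 ⊢
    simp only [bulk_tS]
    omega
  · rw [← h5, bulk_orb] at h2
    generalize orb (↑F) (bulk_tS (-b) (-c) σ) t = w at h2 ⊢
    unfold Far at h2 ⊢
    simp only [bulk_tS] at h2 ⊢
    omega

/-- Probability of fast pieces. -/
theorem badS_pr {M : ℕ} {n W R R1 : ℤ} {N : ℕ} (hN : (N : ℤ) = 3 * W) {B : ℝ}
    (hlow : Pr (fun _ => (1/2:ℝ)) (RE 0 N 0 N) (fun F => ∃ (σ : St) (t : ℕ),
      inR R1 (N - R1) R1 (N - R1) σ.1 ∧ Far σ.1 R (orb (↑F) σ t).1 ∧ t < M) ≤ B)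
    {q : Vtx} {S : Finset Edg} (hS : Win n W q ⊆ S) :
    Pr (fun _ => (1/2:ℝ)) S (BadS n W R R1 M q) ≤ B := by
  have h : Pr (fun _ => (1/2:ℝ)) S (BadS n W R R1 M q) ≤
      Pr (fun _ => (1/2:ℝ)) S (fun F => ∃ (σ : St) (t : ℕ),
      inR (wx n W q.1 + R1) (wx n W q.1 + N - R1) (wx n W q.2 + R1) (wx n W q.2 + N - R1) σ.1 ∧
      Far σ.1 R (orb (↑(F ∩ RE (wx n W q.1) (wx n W q.1 + N) (wx n W q.2)
        (wx n W q.2 + N)) : Set Edg) σ t).1 ∧ t < M) := by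
    refine Pr_mono half_ok ?_
    rintro F _ ⟨σ, t, h1, h2, h3⟩
    rw [hN]
    exact ⟨σ, t, h1, h2, h3⟩
  refine h.trans ((sq_pr ?_).trans hlow)
  rw [hN]
  exact hS

/-- Probability of long paths in the layer. -/
theorem badY_pr {m' : ℕ} {n W R1 m : ℤ} (hR1 : 1 ≤ R1) (hm : m = (4 * m' + 16) * R1)
    (hW : W = (4 * m' + 17) * R1) {q : Vtx} {S : Finset Edg} (hS : Win n W q ⊆ S) :
    Pr (fun _ => (1/2:ℝ)) S (BadY n W R1 m q) ≤ (96 * m' + 424) * (1/2) ^ m' := by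
  have hmR : (0:ℤ) ≤ m' * R1 := by positivity
  have hmR2 : (m' : ℤ) ≤ m' * R1 := by
    have : (m' : ℤ) * 1 ≤ m' * R1 := mul_le_mul_of_nonneg_left hR1 (by positivity)
    omega
  have hm2 : m = 4 * (m' * R1) + 16 * R1 := by rw [hm]; ring
  have hW2 : W = 4 * (m' * R1) + 17 * R1 := by rw [hW]; ring
  have e1 : Pr (fun _ => (1/2:ℝ)) S (BadY n W R1 m q) =
      Pr (fun _ => (1/2:ℝ)) (Win n W q) (BadY n W R1 m q) :=
    Pr_local hS (fun F _ => by unfold BadY; rw [inter_assoc, inter_self])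
  rw [e1]
  have h2 := layer_rect (a := wx n W q.1) (b := wx n W q.1 + 3 * W) (c := wx n W q.2)
    (d := wx n W q.2 + 3 * W) (ρ := R1) (w := m) (m := m') hR1 (by omega) (by omega) (by
      have : 2 * ((m':ℤ) + 3) * (R1 + 1) + 4 * R1 =
        2 * ((m':ℤ) * R1) + 2 * m' + 10 * R1 + 6 := by ring
      rw [this]
      omega)
  have h3 : Pr (fun _ => (1/2:ℝ)) (Win n W q) (BadY n W R1 m q) ≤
      P (RE (wx n W q.1) (wx n W q.1 + 3 * W) (wx n W q.2) (wx n W q.2 + 3 * W))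
      (fun F => ∃ u v : Vtx, m ≤ sd u v ∧
      Reach (↑F ∩ {e | bdr (wx n W q.1) (wx n W q.1 + 3 * W) (wx n W q.2)
          (wx n W q.2 + 3 * W) (src e) < R1 ∧
        bdr (wx n W q.1) (wx n W q.1 + 3 * W) (wx n W q.2)
          (wx n W q.2 + 3 * W) (tgt e) < R1} : Set Edg) u v) := by
    refine Pr_mono half_ok ?_
    rintro F hF ⟨u, v, huv, hr⟩
    rw [inter_eq_left.mpr hF] at hr
    exact ⟨u, v, huv, hr⟩
  refine h3.trans (h2.trans (le_of_eq ?_))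
  have hR' : (R1:ℝ) ≠ 0 := by
    have : R1 ≠ 0 := by omega
    exact_mod_cast this
  have hWr : (W:ℝ) = (4 * m' + 17) * R1 := by rw [hW]; push_cast; ring
  have e2 : (((wx n W q.1 + 3 * W - wx n W q.1 : ℤ) : ℝ) +
      ((wx n W q.2 + 3 * W - wx n W q.2 : ℤ) : ℝ)) = 6 * W := by
    push_cast; ring
  rw [e2, hWr]
  have e3 : 6 * ((4 * (m':ℝ) + 17) * R1) / R1 = 24 * m' + 102 := by
    field_simp
    ring
  rw [e3]
  ring

theorem wp : St_WP := by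
  intro c C hc hC hL hU η hη
  obtain ⟨c', δ, hc', hδ, hδ1, hall⟩ := allOk_of hc hC hL hU
  obtain ⟨C1, hC1, hlow⟩ := low_steps
  -- the parameter `m'`
  obtain ⟨m', hm'⟩ : ∃ m : ℕ, (96 * (m:ℝ) + 424) * (1/2 : ℝ) ^ m ≤ η / 2 := by
    have t1 := tendsto_self_mul_const_pow_of_lt_one (r := (1/2:ℝ)) (by norm_num) (by norm_num)
    have t2 := tendsto_pow_atTop_nhds_zero_of_lt_one (r := (1/2:ℝ)) (by norm_num) (by norm_num)
    have t3 := (t1.const_mul 96).add (t2.const_mul 424)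
    rw [mul_zero, mul_zero, add_zero] at t3
    have t4 := (t3.eventually (gt_mem_nhds (show (0:ℝ) < η / 2 by positivity))).exists
    obtain ⟨m, hm⟩ := t4
    refine ⟨m, ?_⟩
    have : (96 * (m:ℝ) + 424) * (1/2 : ℝ) ^ m = 96 * ((m:ℝ) * (1/2:ℝ) ^ m) +
      424 * (1/2:ℝ) ^ m := by ring
    rw [this]
    exact hm.le
  obtain ⟨g, hg⟩ : ∃ g : ℕ, g = 4 * m' + 17 := ⟨_, rfl⟩
  -- the parameter `K`
  obtain ⟨K, hK⟩ : ∃ K : ℕ, C1 * (3 * ((g:ℝ) * (372 * ((K + 1 : ℕ):ℝ) + 60)) + 1) ^ 2 *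
      (1 - δ) ^ K ≤ η / 2 := by
    rcases eq_or_lt_of_le hδ1 with h1 | h1
    · refine ⟨1, ?_⟩
      rw [h1]
      simp only [sub_self, pow_one, mul_zero]
      positivity
    · have t1 := tendsto_pow_const_mul_const_pow_of_lt_one 2 (r := 1 - δ) (by linarith) (by linarith)
      have t2 := t1.const_mul (C1 * (2413 * (g:ℝ)) ^ 2)
      rw [mul_zero] at t2
      obtain ⟨K, hK1, hK2⟩ := ((t2.eventually (gt_mem_nhds
        (show (0:ℝ) < η / 2 by positivity))).and (Filter.eventually_ge_atTop 1)).exists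
      refine ⟨K, le_trans ?_ hK1.le⟩
      have hK2' : (1:ℝ) ≤ K := by exact_mod_cast hK2
      have hg1 : (1:ℝ) ≤ g := by
        have : 1 ≤ g := by omega
        exact_mod_cast this
      have hgK : (1:ℝ) ≤ g * K := by nlinarith
      have hgK2 : (g:ℝ) ≤ g * K := by nlinarith
      have hq0 : 0 ≤ (1 - δ) ^ K := pow_nonneg (by linarith) _
      have h5 : (3 * ((g:ℝ) * (372 * ((K + 1 : ℕ):ℝ) + 60)) + 1) ^ 2 ≤
          (2413 * (g:ℝ) * K) ^ 2 := by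
        refine pow_le_pow_left₀ (by positivity) ?_ 2
        push_cast
        nlinarith
      calc C1 * (3 * ((g:ℝ) * (372 * ((K + 1 : ℕ):ℝ) + 60)) + 1) ^ 2 * (1 - δ) ^ K
          ≤ C1 * (2413 * (g:ℝ) * K) ^ 2 * (1 - δ) ^ K := by gcongr
        _ = C1 * (2413 * (g:ℝ)) ^ 2 * ((K:ℝ) ^ 2 * (1 - δ) ^ K) := by ring
  refine ⟨g * (372 * (K + 1) + 60), c', ?_, hc', fun a ha => ?_⟩
  · have : 1 ≤ g := by omega
    calc 1 = 1 * 1 := rfl
      _ ≤ g * (372 * (K + 1) + 60) := Nat.mul_le_mul this (by omega)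
  obtain ⟨R, hR⟩ : ∃ R : ℤ, R = 124 * (a:ℤ) * (K + 1 : ℕ) := ⟨_, rfl⟩
  obtain ⟨R1, hR1d⟩ : ∃ R1 : ℤ, R1 = 3 * R + 60 * a := ⟨_, rfl⟩
  obtain ⟨m, hmd⟩ : ∃ m : ℤ, m = (4 * m' + 16) * R1 := ⟨_, rfl⟩
  obtain ⟨W, hWd⟩ : ∃ W : ℤ, W = (4 * m' + 17) * R1 := ⟨_, rfl⟩
  have haz : (5:ℤ) ≤ a := by exact_mod_cast ha
  have haK : (a:ℤ) * 1 ≤ (a:ℤ) * (K + 1 : ℕ) :=
    mul_le_mul_of_nonneg_left (by push_cast; omega) (by omega)
  have hR1 : 121 * (a:ℤ) * (K + 1 : ℕ) + a + 2 ≤ R := by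
    have e1 : R = 121 * (a:ℤ) * (K + 1 : ℕ) + 3 * ((a:ℤ) * (K + 1 : ℕ)) := by rw [hR]; ring
    rw [e1]
    omega
  have hR0 : 1 ≤ R := by
    have : (0:ℤ) ≤ 121 * (a:ℤ) * (K + 1 : ℕ) := by positivity
    omega
  have hR10 : 1 ≤ R1 := by omega
  have hm2 : m = 4 * ((m':ℤ) * R1) + 16 * R1 := by rw [hmd]; ring
  have hW2 : W = 4 * ((m':ℤ) * R1) + 17 * R1 := by rw [hWd]; ring
  have hmR : (0:ℤ) ≤ (m':ℤ) * R1 := by positivity
  have hWG : ((g * (372 * (K + 1) + 60) : ℕ) : ℤ) * a = W := by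
    rw [hWd, hR1d, hR, hg]
    push_cast
    ring
  rw [hWG]
  have hpar : ParW W R R1 m := ⟨hR0, by omega, by omega, by omega, by omega⟩
  refine ⟨R, R1, m, hpar, fun n q S _ hS => ?_⟩
  have hN : (((3 * W).toNat : ℕ) : ℤ) = 3 * W := by omega
  have hl := hlow (3 * W).toNat a (K + 1) _ δ R ha (by omega) hδ.le hδ1 (hall _ a (by omega)) hR1
  rw [Nat.add_sub_cancel] at hl
  have hnr : (((3 * W).toNat : ℕ) : ℝ) / a = 3 * ((g:ℝ) * (372 * ((K + 1 : ℕ):ℝ) + 60)) := by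
    have h1 : (((3 * W).toNat : ℕ) : ℝ) = ((3 * W : ℤ) : ℝ) := by exact_mod_cast hN
    rw [h1, hWd, hR1d, hR, hg]
    have ha0 : (a:ℝ) ≠ 0 := by
      have : a ≠ 0 := by omega
      exact_mod_cast this
    push_cast
    field_simp
    ring
  rw [hnr] at hl
  have b1 := badS_pr (n := n) (W := W) (R1 := R1) hN (B := η / 2) (by
    refine le_trans (le_of_eq ?_) (hl.trans hK)
    rw [hR1d]
    congr 1
    funext F
    simp only [eq_iff_iff]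
    refine exists_congr fun σ => exists_congr fun t => ?_
    rw [show (((3 * W).toNat : ℕ) : ℤ) - (3 * R + 60 * a) = (((3 * W).toNat : ℕ) : ℤ) - 3 * R - 60 * a
      by ring]) hS
  have b2 := badY_pr (m' := m') (n := n) hR10 hmd hWd hS
  have b3 := (Pr_or_le half_ok S (BadS n W R R1 ⌈c' * (a:ℝ) ^ (7/4 : ℝ)⌉₊ q)
    (BadY n W R1 m q))
  have b4 : Pr (fun _ => (1/2:ℝ)) S (BadW n W R R1 m ⌈c' * (a:ℝ) ^ (7/4 : ℝ)⌉₊ q) ≤
      Pr (fun _ => (1/2:ℝ)) S (BadS n W R R1 ⌈c' * (a:ℝ) ^ (7/4 : ℝ)⌉₊ q) +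
      Pr (fun _ => (1/2:ℝ)) S (BadY n W R1 m q) := b3
  show Pr (fun _ => (1/2:ℝ)) S (BadW n W R R1 m ⌈c' * (a:ℝ) ^ (7/4 : ℝ)⌉₊ q) ≤ η
  linarith

end W66LT
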